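import Pool.Agent.helper62.HF.SpecV

/-!
# MP_07c750 (quantum unique ergodicity, weight 10), project T1: block P (no decoupled scar; section 5 of /team-store/H9_T1_helper52.md), rows `t1:X`

OUTPUT (`PMN_stmt`). Let `κ` be a smooth function on `Γ \ SL(2, ℝ)` supported in few (`≤ e^(n/4)`) future Bowen boxes of length `n`, with mass `≥ 1/5` for the eigenfunction. Then for windows of the macroscopic length `W = w0 log r` the averages `A = (1/W) ∫_0^W κ(g a_(t+s)) ds` are neither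
almost `0` nor almost `1` with probability at least `w0/5000`: `1/25 < A < 49/50`. So transitions between `K` and its complement cannot be avoided.

PROOF. Suppose the contrary. `k = χ(A)` (`χ = 0` on `(-∞, 1/20]`, `1` on `[1/2, ∞)`) is slowly varying (`k_a, k_n = O(1/W)`, `k_l = O(r/W)`). (1) overlapping windows: `A` cannot jump, so `k` is invariant under the flow up to a small probability (PDD), and every single time is in `K` on the `k`-part. (2) the symbol `k` commutes with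
the change of the packets at fixed width (XCM): `W' (r W^* (k F)) = k F' + o(1)`, by the reproducing formula and Schur's test: `W' (r W^* (kF))(h) - r bk k(h) F'(h) = r ∫ (k(hq) - k(h)) F(hq) G(q) dq`. (3) `k F` lives on `B` (the block of length `n` which ends near the time `log r` is in `K`), `k F'` lives on `D` (the past block is in `K`), and
`‖1_D W' W^* 1_B‖` is small because there are few boxes (SS1, SS3, Schur). So `k F'` is small: contradiction to the mass.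

RULES. Row `t1:XXX`: file `Pool/Agent/<seat>/T1/XXX.lean`, `import Pool.Agent.helper46.T1.SpecP` (and what you need; all rows of QU, RS, EN, MS are proved: `import Pool.Agent.helper62.MS.All` gives `MS.A_XXX`, `RS.A_XXX`, `EN.A_XXX`), `set_option autoImplicit false`, namespace `Pool.Agent.TP`,
`open Pool.Agent.RS Pool.Agent.MS`, auxiliary lemmas prefixed `XXX_`, theorem `XXX_proof (h : YYY_stmt) .. : XXX_stmt` with the rows of this file listed in `from` as hypotheses. No straight double quotes, no convert / congr!.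
-/

open scoped MatrixGroups ContDiff Topology UpperHalfPlane ComplexConjugate
open UpperHalfPlane MeasureTheory Filter Set

namespace Pool.Agent.TP

open Pool.Agent.RS Pool.Agent.MS

/-- the average of `κ` over the future window of length `W` -/
noncomputable def av (κ : SL(2, ℝ) → ℝ) (W : ℝ) (g : SL(2, ℝ)) : ℝ := (∫ s in (0 : ℝ)..W, κ (g * aM s)) / W

/-- smooth cutoffs with values in `[0, 1]` supported in the future boxes of length `n` -/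
structure KF (Γ : Subgroup SL(2, ℝ)) (A : Finset SL(2, ℝ)) (a C n : ℝ) (κ κa κn κl : SL(2, ℝ) → ℝ) : Prop where
  sf : SF Γ κ κa κn κl
  rg : ∀ g, 0 ≤ κ g ∧ κ g ≤ 1
  ev : ∀ g, κ (-g) = κ g
  bn : ∀ g, |κn g| ≤ C
  bl : ∀ g, |κl g| ≤ C * Real.exp n
  su : ∀ g, κ g ≠ 0 → g ∈ HV.FW Γ A a (Real.exp (-n))

/-- functions with a continuous bounded derivative and values in `[0, 1]` -/
structure CB (C : ℝ) (f f' : ℝ → ℝ) : Prop where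
  rg : ∀ x, 0 ≤ f x ∧ f x ≤ 1
  dv : ∀ x, HasDerivAt f (f' x) x
  ct : Continuous f'
  bd : ∀ x, |f' x| ≤ C

/-- the cutoff `χ` -/
def CH (χ : ℝ → ℝ) : Prop := (∀ x, x ≤ 1 / 20 → χ x = 0) ∧ ∀ x, 1 / 2 ≤ x → χ x = 1

/-- the cutoff `ζ` -/
def ZE (ζ : ℝ → ℝ) : Prop := (∀ x, 1 / 20 ≤ x → x ≤ 97 / 100 → ζ x = 1) ∧ ∀ x, ζ x ≠ 0 → 1 / 25 < x ∧ x < 49 / 50

/-- the expectation of `Ψ` in the wide frame -/
noncomputable def Ev (F : Set ℍ) (β α : ℝ → ℝ) (r : ℝ) (φ : ℍ → ℂ) (Ψ : SL(2, ℝ) → ℝ) : ℝ := r * iR F (fun g => Ψ g * ‖pf β α r φ g‖ ^ 2)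

/-! ## The symbol commutes with the change of packets -/

/-- **Row XVL** (a volume; short; from MS: CVK, EN.XVO, RS: GLI). CVK with `R = 3`, `κ = 1/4`, `X = max 1 (1/ρ)`: the set is covered by `≤ C (1 + ρ X)` cells `u {p | bq (1/4) (1/4) (1/(4X)) p}` of measure `≤ C/(4X)` (XVO, GLI); `(1 + ρX)/X ≤ 2 ρ` if `ρ ≤ 1` (`X = 1/ρ`) and `≤ 1 + ρ ≤ 2ρ` if `ρ > 1` (`X = 1`). -/
def XVL_stmt : Prop := ∃ C : ℝ, 0 < C ∧ ∀ ρ : ℝ, 0 < ρ → mG {k : SL(2, ℝ) | (∀ i j, |k.1 i j| ≤ 3) ∧ |k.1 1 0| ≤ ρ} ≤ ENNReal.ofReal (C * ρ)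

/-- **Row XKM** (the mass of the kernel; short-medium; from XVL, MS: OSC, GKF, DYA, STB). OSC with `T = 0` (`st (-0) β0 = β0`): `‖gk‖ ≤ C/(1 + r |k10|)²`, and `gk = 0` unless all entries are `≤ 3` (GKF). `S = {entries ≤ 3}` (closed), DYA with `t k = |k10|`, `A = 0`, `B = C1` (XVL), `lam = r`: `≤ 16 C C1/r`.
Second part: for `t ≥ ρ` `(1 + t/ρ)/(1 + r t) ≤ 2/(1 + r ρ)` if `r ρ ≥ 1` (decreasing in `t`), so `1/(1 + r t)² ≤ 4/(r ρ)² · 1/(1 + t/ρ)²`, DYA with `lam = 1/ρ`: `≤ 64 C C1 ρ/(rρ)²`; if `r ρ < 1` the first part is enough (`1/r ≤ 1/(r²ρ)`). -/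
def XKM_stmt : Prop := ∀ β0 α0 β α : ℝ → ℝ, SB (1 / 4) β0 → SB (1 / 4) α0 → SB (1 / 4) β → SB (1 / 4) α → ∃ C : ℝ, 0 < C ∧ ∀ r : ℝ, 1 ≤ r →
  ∫⁻ k : SL(2, ℝ), ENNReal.ofReal ‖gk r (pc β0 α0) (pc β α) k‖ ∂mG ≤ ENNReal.ofReal (C / r) ∧
  ∀ ρ : ℝ, 0 < ρ → ∫⁻ k in {k : SL(2, ℝ) | ρ < |k.1 1 0|}, ENNReal.ofReal ‖gk r (pc β0 α0) (pc β α) k‖ ∂mG ≤ ENNReal.ofReal (C / (r ^ 2 * ρ))

/-- **Row XDK** (slowly varying functions; short-medium; elementary). If `|k10| > 1/10` then `|..| ≤ 1 ≤ 10 |k10|`. If `|k10| ≤ 1/10`: `k00 k11 = 1 + k01 k10 ≥ 7/10`, so `|k11| ≥ 7/30`; if `k11 < 0` replace `k` by `-k` (`g (-k) = -(g k)`, `Ψ (-x) = Ψ x`). With `d = k11 > 0`: `k = nM (k01/d) * aM (-2 log d) * lM (k10/d)`,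
`|k01/d| ≤ 13`, `|2 log d| ≤ 3`, `|k10/d| ≤ 5 |k10|`. Mean value inequality along the three curves (`Ψ (g nM (x + h)) = Ψ ((g nM x) nM h)` etc.): `13 om + 3 om + 5 Λ |k10|`. -/
def XDK_stmt : Prop := ∀ (Γ : Subgroup SL(2, ℝ)) (Ψ Ψa Ψn Ψl : SL(2, ℝ) → ℝ) (om Λ : ℝ), SF Γ Ψ Ψa Ψn Ψl → (∀ g, 0 ≤ Ψ g ∧ Ψ g ≤ 1) → (∀ g, Ψ (-g) = Ψ g) → 0 ≤ om → 0 ≤ Λ →
  (∀ g, |Ψa g| ≤ om) → (∀ g, |Ψn g| ≤ om) → (∀ g, |Ψl g| ≤ Λ) → ∀ g k : SL(2, ℝ), (∀ i j, |k.1 i j| ≤ 3) → |Ψ (g * k) - Ψ g| ≤ 16 * om + 10 * (Λ + 1) * |k.1 1 0|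

/-- **Row XSC** (Schur's test on the group; short-medium; the last part of the proof of helper79/MS/SCH.lean, which has the lemmas SCH_cs and SCH_right). Cauchy-Schwarz: `(∫ a(hk) b(k) dk)² ≤ (∫ b) ∫ a(hk)² b(k) dk`; integrate over `dG F`, Tonelli, `∫_(dG F) a(hk)² dh = ∫_(dG F) a²` (SCH_right). -/
def XSC_stmt : Prop := ∀ (Γ : Subgroup SL(2, ℝ)) (F : Set ℍ) (a b : SL(2, ℝ) → ENNReal), QU.SurfaceGroup Γ → QU.NiceDom Γ F → Measurable a → Measurable b → (∀ (γ : Γ) g, a ((γ : SL(2, ℝ)) * g) = a g) →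
  ∫⁻ h in dG F, (∫⁻ k, a (h * k) * b k ∂mG) ^ 2 ∂mG ≤ (∫⁻ k, b k ∂mG) ^ 2 * ∫⁻ g in dG F, a g ^ 2 ∂mG

/-- **Row XCM** (the symbol commutes with the change of packets; medium; from XKM, XDK, XSC, MS: REP, NM3, STB, SCH_W (helper79/MS/SCH.lean), RS: GR2, GWB, GFD, GBD, FL0, CV1). `e = pk r (pc β α)`, `e' = pk r (pc β' α')`, `b = Wf e φ`, `G(q) = ∫ e'(z) conj e(q⁻¹ z) dz = gk r (pc β' α') (pc β α) q`.
SCH_W for `v = k b` and for `v = b`, and REP (`sy(ē) b = bk φ`): `Wf e' (sy ē (k b)) h = ∫ k(hq) b(hq) G(q) dq`, `bk · Wf e' φ h = ∫ b(hq) G(q) dq`, `bk = bk (cc (pc β α)) r r = qn F (pc β α) r φ` (GR2, `nn F φ = 1`). So the function under the norm is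
`r ∫ (k(hq) - k(h)) b(hq) G(q) dq + (r qn - 1) k(h) Wf e' φ (h)`. XDK (`Λ = om r`, entries `≤ 3` if `G(q) ≠ 0`: GKF) and `|k(hq) - k(h)| ≤ 1`: `|..| ≤ D(q) = min 1 (16 om + 10 (om r + 1) |q10|)`. XSC with `a = ‖b‖`, `b = D ‖G‖`: the `L²` norm of the first part times `√r` is at most `(r ∫ D ‖G‖) √(r qn)`, and with `ρ = 1/(r √om)` XKM gives
`r ∫ D ‖G‖ ≤ C (16 om + 10 (om r + 1) ρ + 1/(r ρ)) ≤ C (16 om + 10 √om + 10/(r √om) + √om)`. The second part: `|r qn - 1| ≤ η'` and `r iR ‖Wf e' φ‖² ≤ 1 + η'` (NM3 for both packets). Choose `om`, then `r0`. -/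
def XCM_stmt : Prop := ∀ (Γ : Subgroup SL(2, ℝ)) (F : Set ℍ) (β α β' α' : ℝ → ℝ), QU.SurfaceGroup Γ → QU.NiceDom Γ F → BB (1 / 4) β → BA (1 / 4) α → BB (1 / 4) β' → BA (1 / 4) α' →
  ∀ η : ℝ, 0 < η → ∃ om r0 : ℝ, 0 < om ∧ 1 ≤ r0 ∧ ∀ (r : ℝ) (φ : ℍ → ℂ) (k ka kn kl : SL(2, ℝ) → ℝ), r0 ≤ r → EigL Γ (1 / 4 + r ^ 2) φ → nn F φ = 1 → SF Γ k ka kn kl → (∀ g, 0 ≤ k g ∧ k g ≤ 1) → (∀ g, k (-g) = k g) →
    (∀ g, |ka g| ≤ om) → (∀ g, |kn g| ≤ om) → (∀ g, |kl g| ≤ om * r) →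
      r * iR F (fun g => ‖(r : ℂ) * Wf (pk r (pc β' α')) (sy Γ F (fun z => conj (pk r (pc β α) z)) (fun g => (k g : ℂ) * Wf (pk r (pc β α)) φ g)) g - (k g : ℂ) * Wf (pk r (pc β' α')) φ g‖ ^ 2) ≤ η

/-! ## The uncertainty principle for a slowly varying symbol -/

/-- **Row PUP** (medium; from XCM, MS: SCH, SS1, SS3, SYB, NM3, STB, RS: GWB, GFD, GBD, GLC, CV1, FL0; HV.BWM or countability of `Γ` for measurability; compare helper9/MS/AS1.lean and step (3) of the proof of helper27/MS/MS2.lean). `a1 = min` of the `a0` of SS1 (for `β0 = β`, `α0 = α`) and `1/8`. `T = n + s`, `e = pk r (pc β α)`,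
`e' = pk r (pc (st (-T) β) α)`, `t1 = log r - n - s`, `B = {g | g a_t1 ∈ FW Γ A a e^(-n)}`, `D = {g | g a_(-n) ∈ FW Γ A a e^(-n)}` (measurable, `Γ`-invariant). `v = k Wf e φ = v1 + v2`, `v1 = 1_B v`. (1) XCM: `√r ‖Wf e' (r sy ē v) - k Wf e' φ‖ ≤ √η'`. (2) `g ∈ B` means `bq a (a X) (a U) ((y aM (-t1))⁻¹ γ g)` with
`X = e^t1`, `U = e^(-n) e^(-t1)`, `X U = e^(-n) ≤ 1` (conjugation by `aM t1` multiplies the upper right entry by `e^t1`, the lower left one by `e^(-t1)`): SS1: `r S1 = C |A| e^(-T/2) e^s (1 + e^(t1 + T)/r) = 2 C |A| e^(-T/2) e^s` (`t1 + T = log r`; `e^(-n) e^(-t1) r = e^s`). `g ∈ D` means `bq a (a e^(-n)) a ((y aM n)⁻¹ γ g)`: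
SS3: `r S2 = C |A| a e^(-n) e^(T/2)`. So `r² S1 S2 ≤ C' |A|² e^(-n) ≤ C' e^(-n/2) ≤ δ²/4` for `n ≥ n1` (`C'` depends on `s`, `a`); SCH: `√r ‖1_D Wf e' (r sy ē v1)‖ ≤ (δ/2) √(r iR ‖v1‖²) ≤ δ`. (3) NM3 for both packets, SYB: `√r ‖Wf e' (r sy ē v2)‖ ≤ (1 + η') √(r iR ‖v2‖²)`.
Triangle inequality in `L²(dG F ∩ D)`. -/
def PUP_stmt : Prop := ∀ (Γ : Subgroup SL(2, ℝ)) (F : Set ℍ) (β α : ℝ → ℝ), QU.SurfaceGroup Γ → QU.NiceDom Γ F → BB (1 / 4) β → BA (1 / 4) α → ∃ a1 : ℝ, 0 < a1 ∧ ∀ a s δ : ℝ, 0 < a → a ≤ a1 → 0 ≤ s → 0 < δ → ∃ n1 : ℝ, 0 ≤ n1 ∧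
  ∀ (n : ℝ) (A : Finset SL(2, ℝ)), n1 ≤ n → (A.card : ℝ) ≤ Real.exp (n / 4) → ∀ η : ℝ, 0 < η → ∃ om r0 : ℝ, 0 < om ∧ 1 ≤ r0 ∧ ∀ (r : ℝ) (φ : ℍ → ℂ) (k ka kn kl : SL(2, ℝ) → ℝ), r0 ≤ r → EigL Γ (1 / 4 + r ^ 2) φ → nn F φ = 1 → SF Γ k ka kn kl →
    (∀ g, 0 ≤ k g ∧ k g ≤ 1) → (∀ g, k (-g) = k g) → (∀ g, |ka g| ≤ om) → (∀ g, |kn g| ≤ om) → (∀ g, |kl g| ≤ om * r) →
      Real.sqrt (r * ∫ g in dG F ∩ {g | g * aM (-n) ∈ HV.FW Γ A a (Real.exp (-n))}, k g ^ 2 * ‖pf (st (-(n + s)) β) α r φ g‖ ^ 2 ∂mG) ≤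
        δ + η + (1 + η) * Real.sqrt (r * ∫ g in dG F \ {g | g * aM (Real.log r - n - s) ∈ HV.FW Γ A a (Real.exp (-n))}, k g ^ 2 * ‖pf β α r φ g‖ ^ 2 ∂mG)

/-! ## Calculus of the cutoffs -/

/-- **Row PSF** (calculus of `SF`; short-medium; from RS.GLC). (1) translation: `g nM x aM t = g aM t nM (e^(-t) x)`, `g lM y aM t = g aM t lM (e^t y)`, `aM` commute. (2) products, (3) `1 - Ψ`, (4) composition with a `C¹` function. -/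
def PSF_stmt : Prop := ∀ (Γ : Subgroup SL(2, ℝ)) (Ψ Ψa Ψn Ψl : SL(2, ℝ) → ℝ), SF Γ Ψ Ψa Ψn Ψl →
  (∀ t : ℝ, SF Γ (fun g => Ψ (g * aM t)) (fun g => Ψa (g * aM t)) (fun g => Real.exp (-t) * Ψn (g * aM t)) (fun g => Real.exp t * Ψl (g * aM t))) ∧
  (∀ Φ Φa Φn Φl : SL(2, ℝ) → ℝ, SF Γ Φ Φa Φn Φl → SF Γ (fun g => Ψ g * Φ g) (fun g => Ψa g * Φ g + Ψ g * Φa g) (fun g => Ψn g * Φ g + Ψ g * Φn g) (fun g => Ψl g * Φ g + Ψ g * Φl g)) ∧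
  SF Γ (fun g => 1 - Ψ g) (fun g => -Ψa g) (fun g => -Ψn g) (fun g => -Ψl g) ∧
  ∀ f f' : ℝ → ℝ, Continuous f' → (∀ x, HasDerivAt f (f' x) x) → SF Γ (fun g => f (Ψ g)) (fun g => f' (Ψ g) * Ψa g) (fun g => f' (Ψ g) * Ψn g) (fun g => f' (Ψ g) * Ψl g)

/-- **Row PAV** (averages; short-medium; from PSF, RS.GLC). `av κ W (g aM x) = (1/W) ∫_x^(W+x) κ(g aM s) ds`, derivative `(κ (g aM W) - κ g)/W` at `0`. Along `nM`: differentiation under the integral sign (`hasDerivAt_integral_of_dominated_loc_of_deriv_le`), the derivative of `κ (g nM x aM s)` is `e^(-s) κn (g nM x aM s)` (PSF (1) at the point `g nM x`):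
`An g = (1/W) ∫_0^W e^(-s) κn (g aM s) ds`, `|An| ≤ Bn/W`; along `lM`: `Al g = (1/W) ∫_0^W e^s κl (g aM s) ds`, `|Al| ≤ Bl e^W/W`. Continuity: the integrand is continuous in `(g, s)`. Invariance under `Γ` is clear; `-g aM s = -(g aM s)`. -/
def PAV_stmt : Prop := ∀ (Γ : Subgroup SL(2, ℝ)) (κ κa κn κl : SL(2, ℝ) → ℝ) (W Bn Bl : ℝ), SF Γ κ κa κn κl → (∀ g, 0 ≤ κ g ∧ κ g ≤ 1) → (∀ g, |κn g| ≤ Bn) → (∀ g, |κl g| ≤ Bl) → 0 < W →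
  (∀ g, 0 ≤ av κ W g ∧ av κ W g ≤ 1) ∧ ((∀ g, κ (-g) = κ g) → ∀ g, av κ W (-g) = av κ W g) ∧
  ∃ Aa An Al : SL(2, ℝ) → ℝ, SF Γ (av κ W) Aa An Al ∧ (∀ g, |Aa g| ≤ 1 / W) ∧ (∀ g, |An g| ≤ Bn / W) ∧ ∀ g, |Al g| ≤ Bl * Real.exp W / W

/-- **Row PCH** (the cutoffs exist; short; pure). `S = Real.smoothTransition`: `χ x = S ((x - 1/20)/(9/20))`, `ζ x = S (100 (x - 1/25)) S (100 (49/50 - x))`. Derivatives are continuous and vanish outside a bounded interval, hence bounded. -/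
def PCH_stmt : Prop := ∃ (C : ℝ) (χ χ' ζ ζ' : ℝ → ℝ), 1 ≤ C ∧ CB C χ χ' ∧ CB C ζ ζ' ∧ CH χ ∧ ZE ζ

/-! ## Stationarity -/

/-- **Row PIN** (approximate stationarity; medium; from PSF, PAV, MS.INW). `K`, `r1` from INW. `s0` with `8 K C² e^(-s0) ≤ η` (`C ≥ 1`); `r0 ≥ r1` with `K log r/r ≤ η/2` for `r ≥ r0`. `p = s0`, `q = log r - n - s0`. Let `t ≤ t'` (symmetric otherwise). (S2), case `u ≥ 0`: INW for `Ψ g = χ (av κ W g) (1 - κ (g aM u))` and the times `t`, `t'`: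
`|Ψn| ≤ C · C/W + e^(-u) C ≤ 2 C²`, `|Ψl| ≤ C · C e^n e^W/W + C e^n e^u ≤ C² e^n (e^W + e^u)` (PSF, PAV, `W ≥ 1`): error `K (2 C² e^(-t) + (t' + C² e^n (e^(W + t') + e^(u + t')))/r) ≤ K (2 C² e^(-s0) + log r/r + 2 C² e^(-s0)) ≤ η`. Case `u < 0`: INW for `Ψ g = χ (av κ W (g aM (-u))) (1 - κ g)` and the times
`t + u`, `t' + u ≥ p`: `|Ψn| ≤ 2C²`, `|Ψl| ≤ C² e^n (e^(W - u) + 1)`, the same bound. (S1), (S3) are simpler. -/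
def PIN_stmt : Prop := ∀ (Γ : Subgroup SL(2, ℝ)) (F : Set ℍ) (β α : ℝ → ℝ), QU.SurfaceGroup Γ → QU.NiceDom Γ F → BB (1 / 4) β → BA (1 / 4) α → ∀ C η : ℝ, 1 ≤ C → 0 < η → ∃ s0 : ℝ, 0 ≤ s0 ∧ ∀ s : ℝ, s0 ≤ s → ∃ r0 : ℝ, 1 ≤ r0 ∧
  ∀ (n : ℝ) (κ κa κn κl : SL(2, ℝ) → ℝ) (χ χ' ζ ζ' : ℝ → ℝ) (r : ℝ) (φ : ℍ → ℂ), 0 ≤ n → SF Γ κ κa κn κl → (∀ g, 0 ≤ κ g ∧ κ g ≤ 1) → (∀ g, |κn g| ≤ C) → (∀ g, |κl g| ≤ C * Real.exp n) → CB C χ χ' → CB C ζ ζ' → r0 ≤ r → EigL Γ (1 / 4 + r ^ 2) φ → nn F φ = 1 → ∀ W : ℝ, 1 ≤ W →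
    (∀ t t' : ℝ, s ≤ t → s ≤ t' → t + W ≤ Real.log r - n - s → t' + W ≤ Real.log r - n - s → |Ev F β α r φ (fun g => ζ (av κ W (g * aM t))) - Ev F β α r φ (fun g => ζ (av κ W (g * aM t')))| ≤ η) ∧
    (∀ t t' u : ℝ, s ≤ t → s ≤ t' → t + W ≤ Real.log r - n - s → t' + W ≤ Real.log r - n - s → s ≤ t + u → s ≤ t' + u → t + u ≤ Real.log r - n - s → t' + u ≤ Real.log r - n - s →
      |Ev F β α r φ (fun g => χ (av κ W (g * aM t)) * (1 - κ (g * aM (t + u)))) - Ev F β α r φ (fun g => χ (av κ W (g * aM t')) * (1 - κ (g * aM (t' + u))))| ≤ η) ∧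
    ∀ t t' : ℝ, s ≤ t → s ≤ t' → t ≤ Real.log r - n - s → t' ≤ Real.log r - n - s → |Ev F β α r φ (fun g => κ (g * aM t)) - Ev F β α r φ (fun g => κ (g * aM t'))| ≤ η

/-! ## Persistence -/

/-- the window averages of a path -/
noncomputable def aw {Ω : Type} (k : ℝ → Ω → ℝ) (W t : ℝ) (x : Ω) : ℝ := (∫ s in (0 : ℝ)..W, k (t + s) x) / W

/-- **Row PDA** (a dichotomy makes the symbol invariant; short-medium; pure). (1) `A t - A t' = (1/W)(∫_0^y k - ∫_W^(W+y) k)`, `y = t' - t ≤ W/2`, so `|A t - A t'| ≤ 1/2`. If `ζ (A t)`, `ζ (A t')` are both `≠ 1` then each of `A t`, `A t'` is `< 1/20` or `> 97/100`, and both are of the same kind (`1/20 + 1/2 < 97/100`): `χ (A t) = χ (A t')`. Otherwise the right side is `≥ 1`.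
(2) `N` steps of length `(t' - t)/N ≤ W/2`: sum of (1), `∫ ζ (A t) ≤ c`. (3) if `A ≤ 1/20`: `χ = 0`; if `1/20 ≤ A ≤ 97/100`: `ζ = 1`; if `A ≥ 97/100`: `1 - A ≤ 3/100`, `χ = 1`. -/
def PDA_stmt : Prop := ∀ (Ω : Type) [MeasurableSpace Ω] (P : Measure Ω) (k : ℝ → Ω → ℝ) (χ ζ : ℝ → ℝ) (p q W c : ℝ) (N : ℕ), IsFiniteMeasure P → Measurable (Function.uncurry k) → (∀ t x, 0 ≤ k t x ∧ k t x ≤ 1) → 0 < W → 2 * (q - p) ≤ N * W →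
  Measurable χ → Measurable ζ → (∀ x, 0 ≤ χ x ∧ χ x ≤ 1) → (∀ x, 0 ≤ ζ x ∧ ζ x ≤ 1) → CH χ → ZE ζ → (∀ t, p ≤ t → t + W ≤ q → ∫ x, ζ (aw k W t x) ∂P ≤ c) →
  (∀ t t' x, t ≤ t' → t' ≤ t + W / 2 → |χ (aw k W t x) - χ (aw k W t' x)| ≤ ζ (aw k W t x) + ζ (aw k W t' x)) ∧
  (∀ t t', p ≤ t → t + W ≤ q → p ≤ t' → t' + W ≤ q → ∫ x, |χ (aw k W t x) - χ (aw k W t' x)| ∂P ≤ 2 * N * c) ∧
  ∀ t x, χ (aw k W t x) * (1 - aw k W t x) ≤ 3 / 100 + ζ (aw k W t x) ∧ aw k W t x ≤ 1 / 20 + χ (aw k W t x) ^ 2 + ζ (aw k W t x)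

/-- **Row PDD** (persistence; medium; pure; from PDA). `φ(t, u) = ∫ χ(A t)(1 - k (t+u)) dP`. All `∫ ζ (A t) ≤ c + η` (S1). Fubini: `(1/W) ∫_0^W φ(t0, u) du = ∫ χ(A t0)(1 - A t0) ≤ e1 = (3/100)(1 + η) + c + η` (PDA (3)): some `u0 ∈ [0, W]` has `φ(t0, u0) ≤ e1`. Let `p + W ≤ t`, `t + 2W ≤ q`.
(a) `p + W ≤ s ≤ q - W`: `t'' = s - u0`, `φ(t'', u0) ≤ e1 + η` (S2), `∫ χ(A t)(1 - k s) ≤ φ(t'', u0) + 2 N (c + η)` (PDA (2)). (b) `q - W < s ≤ q`: S2 from `(t, s - t)` to `(t - W, s - t)`, then (a) for `t - W`, `s - W` (only `p ≤ t - W`, `t ≤ q` is used there). (c) `p ≤ s < p + W`: S2 from `t` to `t + W`. Second statement: PDA (3), `∫ A t = (1/W) ∫_0^W ∫ k (t+s) ≥ m - η` (S3), (S1). -/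
def PDD_stmt : Prop := ∀ (Ω : Type) [MeasurableSpace Ω] (P : Measure Ω) (k : ℝ → Ω → ℝ) (χ ζ : ℝ → ℝ) (p q W η c m t0 t1 : ℝ) (N : ℕ), IsFiniteMeasure P → P.real univ ≤ 1 + η → Measurable (Function.uncurry k) → (∀ t x, 0 ≤ k t x ∧ k t x ≤ 1) → 0 < W → 3 * W ≤ q - p →
  2 * (q - p) ≤ N * W → 0 ≤ η → 0 ≤ c → Measurable χ → Measurable ζ → (∀ x, 0 ≤ χ x ∧ χ x ≤ 1) → (∀ x, 0 ≤ ζ x ∧ ζ x ≤ 1) → CH χ → ZE ζ →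
  (∀ t t', p ≤ t → p ≤ t' → t + W ≤ q → t' + W ≤ q → |∫ x, ζ (aw k W t x) ∂P - ∫ x, ζ (aw k W t' x) ∂P| ≤ η) →
  (∀ t t' u, p ≤ t → p ≤ t' → t + W ≤ q → t' + W ≤ q → p ≤ t + u → p ≤ t' + u → t + u ≤ q → t' + u ≤ q → |∫ x, χ (aw k W t x) * (1 - k (t + u) x) ∂P - ∫ x, χ (aw k W t' x) * (1 - k (t' + u) x) ∂P| ≤ η) →
  (∀ t t', p ≤ t → p ≤ t' → t ≤ q → t' ≤ q → |∫ x, k t x ∂P - ∫ x, k t' x ∂P| ≤ η) → p ≤ t0 → t0 + W ≤ q → ∫ x, ζ (aw k W t0 x) ∂P ≤ c → p ≤ t1 → t1 ≤ q → m ≤ ∫ x, k t1 x ∂P →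
    (∀ t s, p + W ≤ t → t + 2 * W ≤ q → p ≤ s → s ≤ q → ∫ x, χ (aw k W t x) * (1 - k s x) ∂P ≤ 3 / 100 * (1 + η) + (2 * N + 1) * (c + η) + 2 * η) ∧
    ∀ t, p ≤ t → t + W ≤ q → m - η - (1 + η) / 20 - (c + η) ≤ ∫ x, χ (aw k W t x) ^ 2 ∂P

/-! ## The main theorem of the block -/

/-- **Row PMN** (medium-long; from PUP, PSF, PAV, PCH, PIN, PDD, MS: EQ4, NM3, STB, RS: GFD, GBD, GWB, GLC). `C ≥ C3` and the `C` of PCH; `δ = 1/100`, `η = w0/10^5`; `s = s0` from PIN for `C`, `η`; `a1`, `n1` from PUP for `a`, `s`, `δ`. Given `n`, `A`, `κ`: `om`, `r0` from PUP for `η' = 1/100`; `r` large. `P = (mG.restrict (dG F)).withDensity (r ‖pf β α r φ‖²)`, so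
`∫ Ψ dP = Ev Ψ` and `P univ ≤ 1 + η` (NM3); `k t g = κ (g aM t)`, `p = s`, `q = log r - n - s`, `W = w0 log r`, `N = ⌈2/w0⌉ ≤ 3/w0`, `c = w0/5000`. Suppose `Ev (indicator) < c` at the time `t0 = t`: then `∫ ζ (A t0) ≤ c` (`ζ ≤` indicator). PDD: with `e = 3/100 (1+η) + (2N+1)(c+η) + 2η ≤ 33/1000`. Let `τ = p + W` and
`k = χ (av κ W (g aM τ))`: `SF` with `|ka| ≤ C/W`, `|kn| ≤ C e^(-τ) C/W`, `|kl| ≤ C e^τ C e^n e^W/W ≤ om r` for large `r` (`τ + W + n ≤ log r`). PUP: `B ⊇ {κ (g aM q) ≠ 0}`, so `r ∫_(Bᶜ) k² |F|² ≤ Ev (k (1 - κ (g aM q))) ≤ e` (PDD, `s = q`); right side of PUP `≤ 1/100 + 1/100 + (101/100) √e ≤ 21/100`. Left side: `D ⊇ {κ (g aM (-n)) ≠ 0}`: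
`r ∫_D k² |F'|² ≥ r iR (k² κ (g aM (-n)) |F'|²)`; EQ4 with `T = n + s`, `Ψ g = k (g aM T)² κ (g aM s)`: `≥ Ev (χ(A (τ+T))² κ (g aM s)) - η ≥ Ev (χ(A (τ+T))²) - Ev (χ(A (τ + T)) (1 - κ (g aM s))) - η ≥ (1/5 - η - (1+η)/20 - (c+η)) - e - η ≥ 11/100` (PDD for `t = τ + T`, `s = p`; `Ψ (g a_(-T)) = k(g)² κ(g a_(-n))`). But `(21/100)² < 11/100`. -/
def PMN_stmt : Prop := ∀ (Γ : Subgroup SL(2, ℝ)) (F : Set ℍ) (β α : ℝ → ℝ), QU.SurfaceGroup Γ → QU.NiceDom Γ F → BB (1 / 4) β → BA (1 / 8) α → ∃ a1 : ℝ, 0 < a1 ∧ ∀ a C3 w0 : ℝ, 0 < a → a ≤ a1 → 1 ≤ C3 → 0 < w0 → w0 ≤ 1 / 8 → ∃ n1 : ℝ, 0 ≤ n1 ∧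
  ∀ (n : ℝ) (A : Finset SL(2, ℝ)) (κ κa κn κl : SL(2, ℝ) → ℝ), n1 ≤ n → (A.card : ℝ) ≤ Real.exp (n / 4) → KF Γ A a C3 n κ κa κn κl → ∃ r0 : ℝ, 1 ≤ r0 ∧ ∀ (r : ℝ) (φ : ℍ → ℂ) (t t1 : ℝ), r0 ≤ r → EigL Γ (1 / 4 + r ^ 2) φ → nn F φ = 1 →
    Real.sqrt (Real.log r) ≤ t1 → t1 ≤ Real.log r - Real.sqrt (Real.log r) → 1 / 5 ≤ Ev F β α r φ (fun g => κ (g * aM t1)) → Real.sqrt (Real.log r) ≤ t → t + w0 * Real.log r ≤ Real.log r - Real.sqrt (Real.log r) →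
      w0 / 5000 ≤ r * ∫ g in dG F ∩ {g | 1 / 25 < av κ (w0 * Real.log r) (g * aM t) ∧ av κ (w0 * Real.log r) (g * aM t) < 49 / 50}, ‖pf β α r φ g‖ ^ 2 ∂mG

/-- **Row PKS** (symmetric cutoffs; short; from PSF, MS.BXM). BXM for `A` gives `Ψ`; `κ g = 1 - (1 - Ψ g)(1 - Ψ (-g))`, `A' = A ∪ {-y | y ∈ A}`: `Ψ (-g) ≠ 0` gives `bq .. (y⁻¹ γ (-g)) = bq .. ((-y)⁻¹ γ g)`. Derivatives of `g ↦ Ψ (-g)`: `(-g) nM x = -(g nM x)`. -/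
def PKS_stmt : Prop := ∀ Γ : Subgroup SL(2, ℝ), QU.SurfaceGroup Γ → ∃ a0 : ℝ, 0 < a0 ∧ a0 ≤ 1 / 100 ∧ ∀ a : ℝ, 0 < a → a ≤ a0 → ∃ C : ℝ, 1 ≤ C ∧ ∀ (n : ℝ) (A : Finset SL(2, ℝ)), 0 ≤ n → ∃ (A' : Finset SL(2, ℝ)) (κ κa κn κl : SL(2, ℝ) → ℝ),
  A'.card ≤ 2 * A.card ∧ KF Γ A' (16 * a) C n κ κa κn κl ∧ ∀ g, g ∈ HV.FW Γ A a (Real.exp (-n)) → κ g = 1

/-- **Row PDF** (the form used by helper52's block F; short-medium; from PMN). `c2 = 1/100`, `c3 = w0/5000`; `n = log N0` (`N0 ≥ 1`): `exp (-n) = 1/N0`, `exp n = N0`, `exp (n/4) = N0^(1/4) ≥ N0^(1/1000)`; PMN for `16 a` in place of `a`. `n1 ≥ exp` of the `n1` of PMN. The hypotheses on the times are weaker for large `r` (`√(log r) ≤ w0 log r`).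
The `iR` of the indicator function times `‖pf‖²` is the integral over `dG F ∩ {..}` (the set is Borel: `av κ W` is continuous by PAV), which contains `{1/25 < A < 49/50}`. -/
def PDF_stmt : Prop := ∀ (β α : ℝ → ℝ), BB (1 / 4) β → BA (1 / 8) α → ∀ w0 : ℝ, 0 < w0 → w0 ≤ 1 / 100 → ∃ c2 c3 : ℝ, 0 < c2 ∧ c2 ≤ 1 / 100 ∧ 0 < c3 ∧ ∀ (Γ : Subgroup SL(2, ℝ)) (F : Set ℍ), QU.SurfaceGroup Γ → QU.NiceDom Γ F → ∃ a1 : ℝ, 0 < a1 ∧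
  ∀ a Cκ : ℝ, 0 < a → a ≤ a1 → 1 ≤ Cκ → ∃ n1 : ℕ, 1 ≤ n1 ∧ ∀ (N0 : ℕ) (A : Finset SL(2, ℝ)) (κ κa κn κl : SL(2, ℝ) → ℝ), n1 ≤ N0 → (A.card : ℝ) ≤ (N0 : ℝ) ^ (1 / 1000 : ℝ) → SF Γ κ κa κn κl → (∀ g, 0 ≤ κ g ∧ κ g ≤ 1) → (∀ g, κ (-g) = κ g) →
    (∀ g, |κn g| ≤ Cκ) → (∀ g, |κl g| ≤ Cκ * N0) → (∀ g, κ g ≠ 0 → g ∈ HV.FW Γ A (16 * a) (1 / N0)) → ∃ R0 : ℝ, 1 ≤ R0 ∧ ∀ (r : ℝ) (φ : ℍ → ℂ), R0 ≤ r → EigL Γ (1 / 4 + r ^ 2) φ → nn F φ = 1 →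
      (∃ t, Real.sqrt (Real.log r) ≤ t ∧ t ≤ Real.log r - Real.sqrt (Real.log r) ∧ 1 / 5 ≤ r * iR F (fun g => κ (g * aM t) * ‖pf β α r φ g‖ ^ 2)) →
      ∀ t : ℝ, w0 * Real.log r ≤ t → t ≤ (1 - 2 * w0) * Real.log r →
        c3 ≤ r * iR F (({g | 1 / 25 ≤ av κ (w0 * Real.log r) (g * aM t) ∧ av κ (w0 * Real.log r) (g * aM t) ≤ 1 - 2 * c2}).indicator (fun g => ‖pf β α r φ g‖ ^ 2))

end Pool.Agent.TP
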