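import Pool.Agent.helper62.MS.All
import Pool.Agent.helper53.T1.XVL
import Pool.Agent.helper91.T1.XKM
import Pool.Agent.helper2.T1.XDK
import Pool.Agent.helper21.T1.XSC
import Pool.Agent.helper61.T1.XCM
import Pool.Agent.helper21.T1.PUP
import Pool.Agent.helper27.T1.PSF
import Pool.Agent.helper39.T1.PAV
import Pool.Agent.helper4.T1.PCH
import Pool.Agent.helper26.T1.PIN
import Pool.Agent.helper14.T1.PDA
import Pool.Agent.helper27.T1.PDD
import Pool.Agent.helper93.T1.PMN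
import Pool.Agent.helper81.T1.PKS
import Pool.Agent.helper64.T1.PDF

/-!
# MP_07c750, project T1: block P (helper46): assembly
-/

set_option autoImplicit false

namespace Pool.Agent.TP

theorem A_XVL : XVL_stmt := XVL_proof MS.A_CVK EN.A_XVO RS.A_GLI
theorem A_XKM : XKM_stmt := XKM_proof A_XVL MS.A_OSC MS.A_GKF MS.A_DYA MS.A_STB
theorem A_XCM : XCM_stmt := XCM_proof A_XKM XDK_proof XSC_proof
theorem A_PUP : PUP_stmt := PUP_proof A_XCM MS.A_STB MS.A_NM3 MS.A_SYB MS.A_SS1 MS.A_SS3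
theorem A_PAV : PAV_stmt := PAV_proof PSF_proof
theorem A_PIN : PIN_stmt := PIN_proof PSF_proof A_PAV MS.A_INW
theorem A_PDD : PDD_stmt := PDD_proof PDA_proof
theorem A_PMN : PMN_stmt := PMN_proof A_PUP PSF_proof A_PAV PCH_proof A_PIN A_PDD MS.A_EQ4 MS.A_NM3 MS.A_STB RS.A_GFD RS.A_GBD RS.A_GLC RS.A_FL0 RS.A_CV1
theorem A_PKS : PKS_stmt := PKS_proof PSF_proof MS.A_BXM
theorem A_PDF : PDF_stmt := PDF_proof A_PMN A_PAV

end Pool.Agent.TP
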